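import Pool.Agent.N145.PC.GT
import Pool.Agent.TH466.QG.Top

/-!
# Varieties dominated by products of curves of large gonality: general type

Let `C 1, ..., C n` be smooth projective curves over `ℂ`, let `γ i` be the gonality of `C i` (or a
smaller number): every nonconstant rational function on `C i` has degree at least `γ i`. Let `V` be a
variety of dimension `n` with a generically finite rational map to `C 1 × ... × C n` (of any degree).

Let `V ⇢ W` be a dominant rational map of finite degree to any projective variety `W`. It need not be
related to the curves. Let `W_s` be the image of `V` in `W × C 1 × ... × C s`, and let `d i` be the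
degree over `W_(i - 1)` of the image of `V` in `W_(i - 1) × C i`. It is at most the number
of different points of `C i` below a general fibre of `V ⇢ W`, and at most `deg(V ⇢ W)`.

Suppose that `2 d i < γ i` for all `i`. Then `W` is of general type; its canonical map is generically
finite. If `V` is birational to `C 1 × ... × C n` then the canonical map of `W` is birational onto its
image. So all such varieties `W` have good minimal models (Birkar, Cascini, Hacon, McKernan).

This applies to the subvarieties of the images of products of curves: let `C 1 × ... × C N ⇢ W` be a
dominant rational map of degree `r` to a normal variety, and let all `C i` have gonality greater than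
`2 r`. Let `Z ⊆ W` be any subvariety, of positive dimension, which is not in the image of the
indeterminacy locus and of the positive dimensional fibres. Then `Z` is of general type: a component
`V` of the inverse image which dominates `Z` has degree at most `r` over `Z`, and it has a generically
finite map to the product of `dim Z` of the curves.

The bounds are optimal: a curve of gonality `γ = 2 d` may have a map of degree `d` to an
elliptic curve (so in all dimensions `W` need not be of general type if `2 d i = γ i` for an `i`), and
for `d = 1` a hyperelliptic curve `W` does not have a birational canonical map.

Proof. Let `ω i` be regular differentials on the `C i`. The traces on `W` of the products of their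
pullbacks are regular. They do not all vanish, since less than `γ i` points of `C i` impose independent
conditions on the regular differentials (Riemann-Roch). Let `N ⊆ ℂ(W)` be the field generated by the
ratios of the traces. Take a generic point `P` of `W` and a second point `Q` with the same image under
the map given by the traces: either `Q` is the image of `P` under a generic embedding over `N` of the
algebraic closure of `ℂ(W)` in a larger field, or `Q` is any conjugate of `P` over `N`. The traces at
`P` and `Q` are proportional. This is a relation between the points of the fibres of `V ⇢ W` over `P`
and `Q`, which is multilinear in the values of the `ω i`. There are at most `2 d i` values of the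
`i`-th coordinate if the coordinates before it are given, so one can fix all coordinates: each
point of `V` over `P` has the same image in `C 1 × ... × C n` as a point over `Q`. In the first
case this shows that the coordinates are algebraic over `N`. So `ℂ(W)` is algebraic over `N`, and if
`V` is birational to the product then the second case shows that `Q = P` for all conjugates `Q`,
so `ℂ(W) = N`.
-/

set_option autoImplicit false
set_option linter.overlappingInstances false
set_option maxHeartbeats 4000000
set_option synthInstance.maxHeartbeats 400000

open FF Module Pool.Agent Pool.Agent.W602.GT

namespace Pool.Agent.Results.MP_fa3f7f_ag.CurveProductsBirational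

/-- The number `γ` is at most the gonality of the curve with the function field `F`: all nonconstant
rational functions on the curve have degree at least `γ`. -/
def LeGonality (γ : ℕ) (F : Type) [Field F] [Algebra ℂ F] : Prop :=
  ∀ y : F, Transcendental ℂ y → γ ≤ finrank (IntermediateField.adjoin ℂ {y}) F

variable {K : Type} [Field K] [Algebra ℂ K] {n : ℕ}

/-- The function field of the image `W_s` of `V` in the product of `W` and the first `s` curves. Here
`K` and `L` are the function fields of `V` and `W`, and `F i` is the one of the `i`-th curve. -/
noncomputable def Img (F : Fin n → IntermediateField ℂ K) (L : Type) [Field L] [Algebra L K]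
    (s : ℕ) : IntermediateField L K :=
  IntermediateField.adjoin L {z | ∃ l : Fin n, l.val < s ∧ z ∈ F l}

/-- The degree over `W_s` of the image of `V` in the product of `W_s` and the `i`-th curve. -/
noncomputable def deg (F : Fin n → IntermediateField ℂ K) (L : Type) [Field L] [Algebra L K]
    (s : ℕ) (i : Fin n) : ℕ :=
  finrank (Img F L s) (IntermediateField.adjoin (Img F L s) (F i : Set K))

/-- `ω` is a regular canonical form on the smooth projective models of the variety with the function
field `L`: an alternating form, regular at all prime divisors. -/
def IsCanonical (L : Type) [Field L] [Algebra ℂ L] (n : ℕ)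
    (ω : (Fin n → Derivation ℂ L L) → L) : Prop :=
  IsPluri 1 ω ∧ ∀ P : Place ℂ L, Divisorial n P → RegAt P ω

/-- The canonical map of the variety with the function field `L` is birational onto its image: the
ratios of the regular canonical forms generate the function field. -/
def CanonicallyBirational (L : Type) [Field L] [Algebra ℂ L] (n : ℕ) : Prop :=
  IntermediateField.adjoin ℂ {z : L | ∃ ω ω' : (Fin n → Derivation ℂ L L) → L,
    IsCanonical L n ω ∧ IsCanonical L n ω' ∧
      ∃ D : Fin n → Derivation ℂ L L, ω' D ≠ 0 ∧ z = ω D / ω' D} = ⊤

/-- **Varieties dominated by products of curves of large gonality.** Let `K` be the function field of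
a variety `V` of dimension `n` with a generically finite map to a product of `n` curves with the
function fields `F i`, i.e. `K` is algebraic over the compositum of the `F i`. Let `γ i` be at most
the gonality of the `i`-th curve, and let `L ⊆ K` be the function field of a variety `W` such that the
extension is finite. Suppose that for all `i` (the curves are numbered from `0` to `n - 1`) twice the
degree over `W_i` of the image of `V` in the product of `W_i` and the `i`-th curve is less than `γ i`.
Then `W` is of general type, `κ(W) = n`, and if `V` is birational to the product of the curves then
the canonical map of `W` is birational onto its image. -/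
theorem result [Algebra.EssFiniteType ℂ K] (hK : Algebra.trdeg ℂ K = n)
    (F : Fin n → IntermediateField ℂ K) [∀ i, IsFF ℂ (F i)]
    (hF : Algebra.IsAlgebraic ↥(⨆ i, F i) K)
    {γ : Fin n → ℕ} (hγ : ∀ i, LeGonality (γ i) (F i)) (L : Type) [Field L] [Algebra ℂ L]
    [Algebra L K] [IsScalarTower ℂ L K] [FiniteDimensional L K]
    (hdeg : ∀ i : Fin n, 2 * deg F L i i < γ i) :
    KodGe ℂ L n (fun _ => False) n ∧ (⨆ i, F i = ⊤ → CanonicallyBirational L n) := by
  classical
  have hImg : ∀ s, Img F L s = N145.PC.MF F L (N145.PC.Js n s) := by
    intro s
    unfold Img N145.PC.MF N145.PC.MJ
    congr 1
    ext z
    simp only [Set.mem_ofPred_eq, Set.mem_iUnion, N145.PC.mem_Js, Set.mem_range, exists_prop]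
    constructor
    · rintro ⟨l, hl, hz⟩
      exact ⟨l, hl, ⟨z, hz⟩, rfl⟩
    · rintro ⟨l, hl, z, rfl⟩
      exact ⟨l, hl, z.2⟩
  have hs : ∀ l : Fin n, 2 * finrank (N145.PC.MF F L (N145.PC.Js n l))
      (IntermediateField.adjoin (N145.PC.MF F L (N145.PC.Js n l)) (F l : Set K)) < γ l := by
    intro l
    have h1 := hdeg l
    unfold deg at h1
    rw [hImg] at h1
    exact h1
  refine ⟨N145.PC.general_type hF hK hγ hs, fun hsup => ?_⟩
  obtain ⟨I, ω, D, h1, h2, ⟨i0, h3⟩, h4⟩ := N145.PC.birational hsup hK hγ hs
  unfold CanonicallyBirational
  rw [eq_top_iff, ← h4]
  unfold N145.PC.Rt
  rw [IntermediateField.adjoin_le_iff]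
  rintro _ ⟨⟨i, j⟩, rfl⟩
  change ω i D / ω j D ∈ _
  by_cases hj : ω j D = 0
  · rw [hj, div_zero]
    exact zero_mem _
  · exact IntermediateField.subset_adjoin _ _
      ⟨ω i, ω j, ⟨h1 i, h2 i⟩, ⟨h1 j, h2 j⟩, D, hj, rfl⟩

end Pool.Agent.Results.MP_fa3f7f_ag.CurveProductsBirational
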