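import Pool.Agent.N95.RF.All

/-!
MP_fa3f7f_ag, Q1: varieties with multi-valued maps to generic complete intersections, dependent or
not, are fibred over varieties of general type.

Let `K` be an algebraically closed field of characteristic `0` (for instance the complex numbers),
and `k` a subfield. `GenericCI k K` is a complete intersection `X` in a projective space, generic over
`k`: the intersection of a closed subset `V`, defined over the algebraic closure of `k` in `K`, of
dimension at most `m`, and of hypersurfaces `F a = 0` of degrees `d a`, where the ratios of the
coefficients of `F a` to one of them are, for all `a` together, algebraically independent over `k`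
(for `K = ℂ` and `k` countable these are very general complete intersections).

Let `M` be *any* variety over `K`, with function field `L` (of any dimension and Kodaira dimension).
For `j < s` let `x j i`, `i < N j`, be points of a generic complete intersection `X j`, with
coordinates in the algebraic closure of `L`: multi-valued maps from `M` to `X j`, or correspondences
between `M` and `X j`. `ratios (x j i)` is the set of the ratios of the homogeneous coordinates. It is
assumed that

* `x j i` has at most `r j` values, `[L(x j i) : L] ≤ r j`;
* for each group `j`, the closure `W j` in `(X j) ^ (N j)` of the set of the values of
  `(x j 0, x j 1, ...)` has dimension `w j ≥ 1`. The points `x j i` of a group may be dependent in any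
  way, and need not be different. If `ρ` is the smaller of the numbers `N j` and `w j`, and `r = r j`,
  `w = w j`, then `ρ ≤ d a`, and `(ρ + 1) m + 2 r ≤ ∑ a, (d a + 1) + w`, for the numbers `m` and `d a`
  of `X j`;
* the groups are independent: the transcendence degree over `K` of the field `F` generated by the
  values of all `x j i` is `∑ j, w j` (this is no condition if `s = 1`);
* the conjugates over `L` of the values of the `x j i` are algebraic over `F`.

Then there is a fibration from `M` onto a variety of general type `M₁`, of dimension `∑ j, w j`, such
that all `x j i` are algebraic over the function field `L₁` of `M₁`; `L₁` is algebraically closed in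
`L`.

The last hypothesis holds if, for all `j`, the points `x j i` are permuted by the automorphisms of the
algebraic closure over `L`, and in particular if they are the points of the cycle given by a rational
map from `M` to the symmetric power `Sym ^ (r j) (X j)`, with `N j = r j`. So (`s = 1`) the theorem
applies to *all* rational maps from any variety `M` to the symmetric powers of generic complete
intersections, where `w` is the dimension of the image. It also applies to rational maps to products
of symmetric powers whose image is the product of its projections. The case `N j = 1` is that of
independent points.

`GeneralType K L₁ n`: `L₁` has transcendence degree `n` over `K`, and `n + 1` pluricanonical forms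
which are regular at all prime divisors over the varieties with function field `L₁` have `n`
algebraically independent ratios.

The proof: in each group, at most `w j` of the points are such that the others are algebraic over
them. For these points, a canonical form on the variety with function field `K(x j 0, x j 1, ...)` is
obtained as a minor of the matrix of the derivatives of the coordinates of all the points, under the
derivations over `K` and under the derivations dual to the coefficients of the equations, combined to
deformations of the equations which fix all the points (products of linear forms which vanish at the
points), and to deformations which move only one of them. Its products with `2 r - 1` coordinates of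
each point are regular, without any assumption on the relations between the points. The exterior
products over the groups are regular canonical forms on the coverings of `M₁`, their traces are
regular forms on `M₁`, and an argument with Hankel matrices, for one point at a time, shows that all
functions are algebraic over the ratios of the traces.
-/

set_option autoImplicit false
set_option linter.overlappingInstances false

namespace Pool.Agent.Results.MP_fa3f7f_ag.DependentCorrespondences

open Pool.Agent.N111.GI (GenericCI)
open Pool.Agent.N95.PR (ratios)
open Pool.Agent.W602.GT (GeneralType)
open IntermediateField

/-- **Varieties with multi-valued maps to generic complete intersections, dependent or not, are fibred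
over varieties of general type.** -/
theorem result {k K : Type} [Field k] [Field K] [CharZero K] [IsAlgClosed K] [Algebra k K]
    -- the function field of any variety `M` over `K`
    {L : Type} [Field L] [Algebra K L] [Algebra.EssFiniteType K L]
    -- groups of multi-valued maps from `M` to generic complete intersections
    {s : ℕ} (X : Fin s → GenericCI k K) (N r w : Fin s → ℕ)
    (x : ∀ j, Fin (N j) → Fin ((X j).n + 1) → AlgebraicClosure L)
    (hx : ∀ j i, (X j).Point (x j i))
    -- the number of the values
    (hr : ∀ j i, Module.finrank L (adjoin L (ratios (x j i))) ≤ r j) (hr1 : ∀ j, 1 ≤ r j)
    -- the dimension of the set of the values of a group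
    (hw : ∀ j, Algebra.trdeg K (adjoin K (⋃ i, ratios (x j i))) = w j) (hw1 : ∀ j, 1 ≤ w j)
    -- the degrees
    (hN : ∀ j a, min (N j) (w j) ≤ (X j).d a)
    (hd : ∀ j, (min (N j) (w j) + 1) * (X j).m + 2 * r j ≤ ∑ a, ((X j).d a + 1) + w j)
    -- independence of the groups
    (hind : Algebra.trdeg K (adjoin K (⋃ j, ⋃ i, ratios (x j i))) = (∑ j, w j : ℕ))
    -- the conjugates of the values are algebraic over the field of the values
    (hconj : ∀ (σ : AlgebraicClosure L ≃ₐ[L] AlgebraicClosure L) j i, ∀ z ∈ ratios (x j i),
      IsAlgebraic (adjoin K (⋃ j, ⋃ i, ratios (x j i))) (σ z)) :
    ∃ L₁ : IntermediateField K L, (∀ z : L, IsAlgebraic L₁ z → z ∈ L₁) ∧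
      GeneralType K L₁ (∑ j, w j) ∧ ∀ j i, ∀ z ∈ ratios (x j i), IsAlgebraic L₁ z := by
  refine ⟨Pool.Agent.N95.PR.base K L (⋃ j, ⋃ i, ratios (x j i)),
    fun z hz => Pool.Agent.N95.PR.base_closed hz,
    Pool.Agent.N95.RF.fib_all X N r w x hx hr1 hr hw hw1 hN hd hind
      fun σ j i z hz => Pool.Agent.N111.FT.mem_aclo.2 (hconj σ j i z hz), fun j i z hz => ?_⟩
  refine Pool.Agent.N95.PR.alg_base (fun σ z hz => ?_)
    (Pool.Agent.N111.FT.subset_aclo _ (Set.mem_iUnion.2 ⟨j, Set.mem_iUnion.2 ⟨i, hz⟩⟩))
  obtain ⟨j', hj'⟩ := Set.mem_iUnion.1 hz
  obtain ⟨i', hi'⟩ := Set.mem_iUnion.1 hj'
  exact Pool.Agent.N111.FT.mem_aclo.2 (hconj σ j' i' z hi')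

end Pool.Agent.Results.MP_fa3f7f_ag.DependentCorrespondences
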