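import Pool.Agent.N111.FT.Fib
import Pool.Agent.TH466.QG.Top

/-!
MP_fa3f7f_ag, Q1: the images of the varieties which are fibred over high power varieties are fibred
over varieties of general type.

Let `V ⊆ ℙⁿ` be a closed subvariety, of dimension `w ≥ 1`, of a projective variety `{F = 0}` given by
sums of at most `s` powers of linear forms with exponents at least `N`, or by forms with at most `s`
monomials and exponents divisible by numbers at least `N` (`HighPowers s N F`). It is assumed that
`V` is not covered by rational curves of `{F = 0}` (`¬ RatCurve F y`: there is no nonconstant
polynomial curve through the generic point `y` of `V`, over the function field `K` of `V`), or that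
`V` is an irreducible component of `{F = 0}` and not birational to `B × ℙ¹` for any `B`.

Let `W` be *any* variety with a dominant rational map `W ⇢ V`, with fibres of any dimension and of any
kind, and let `M` be *any* variety with a dominant rational map `W ⇢ M` of degree at most `r`, which
need not be compatible with the fibration `W ⇢ V` in any way. (In other words, `M` is any variety with
a rational map to `V` with at most `r` values, which is dominant: replace `W` by its image in
`M × V`.) Let `K'` and `L` be the function fields
of `W` and `M`, and let `m` be their dimension. If
`N ≥ r * min m (r * w) * (s + 4) * ((s - 1) * (s - 2) / 2)` (the bound does not depend on the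
dimension of `W` if `w` is given) then there is a fibration `M ⇢ M₀` (with irreducible geometric
generic fibre, since the function field `L₀` of `M₀` is algebraically closed in `L`) onto a variety
`M₀` of general type, of dimension `n₀ ≥ w`, through which the map to `V` factors up to generically
finite correspondences: the functions on `V` are algebraic over the functions on `M₀`, on `W`.

The conjugates of the function field of `V` over `L`, in the Galois closure of `K'` over `L`, need not
be algebraic over it, and the field `L₀` consists of the elements of `L` which are algebraic over the
field generated by all the conjugates. Its dimension is the number of the algebraically independent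
ratios `t b` of conjugates of terms of the equations of `V`. The pluricanonical forms on `M₀` are
products of powers of Wronskians of the conjugates of the equations, of their terms, of
discriminants, which vanish at the ramified prime divisors, and of powers of the logarithmic form
`d log t 1 ∧ ... ∧ d log t n₀`.

`GeneralType k L₀ n₀`: `trdeg L₀ = n₀`, and `n₀ + 1` pluricanonical forms which are regular at all
prime divisors over the varieties with function field `L₀` have `n₀` algebraically independent
ratios (`Pool/Agent/W602/GT`).
-/

set_option autoImplicit false
set_option linter.overlappingInstances false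

namespace Pool.Agent.Results.MP_fa3f7f_ag.FibredImages

open Pool.Agent.W602.GT (GeneralType Ruled HighPowers SubVar IsComponent)
open Pool.Agent.TH466.QG (RatCurve)

/-- **Fibrations over varieties of general type.** Let `V` be a subvariety, of dimension `w ≥ 1`, of
a system of high powers which is not covered by rational curves of it, or a component which is not
ruled, let `W ⇢ V` be a dominant rational map from any variety `W`, and let `W ⇢ M` be any dominant
rational map of degree at most `r`, `m = dim W = dim M`. If the exponents are at least
`r * min m (r * w) * (s + 4) * ((s - 1) * (s - 2) / 2)`, then `M` has a fibration over a variety `M₀`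
of general type, of dimension `n₀ ≥ w`, such that the functions on `V` are algebraic over the
functions on `M₀`. -/
theorem result {k : Type} [Field k] [CharZero k] [IsAlgClosed k] {n : ℕ} {ι : Type}
    {F : ι → MvPolynomial (Fin (n + 1)) k} {s N w r m : ℕ} (hF : HighPowers s N F) (hN1 : 1 ≤ N)
    (hw : 1 ≤ w) {K : Type} [Field K] [Algebra k K] {y : Fin (n + 1) → K} (hy : SubVar F K w y)
    (hV : ¬ RatCurve F y ∨ IsComponent F y ∧ ¬ Ruled k K)
    (K' L : Type) [Field K'] [Field L] [Algebra k K'] [Algebra k L] [Algebra K K'] [Algebra L K']
    [IsScalarTower k K K'] [IsScalarTower k L K'] [FiniteDimensional L K']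
    (hr : Module.finrank L K' ≤ r) (hm : Algebra.trdeg k L = m)
    (hN : r * (min m (r * w) * ((s + 4) * ((s - 1) * (s - 2) / 2))) ≤ N) :
    ∃ (L₀ : IntermediateField k L) (n₀ : ℕ), w ≤ n₀ ∧ n₀ ≤ m ∧ n₀ ≤ r * w ∧
      GeneralType k L₀ n₀ ∧ (∀ x : L, IsAlgebraic L₀ x → x ∈ L₀) ∧
      ∀ z : K, IsAlgebraic (L₀.map (IsScalarTower.toAlgHom k L K')) (algebraMap K K' z) := by
  have hgen : Algebra.IsAlgebraic (Pool.Agent.W602.GT.coords k y) K := by
    rw [hy.gen]
    infer_instance
  have hC : Pool.Agent.TH466.QG.HasCirc k s N w K := by
    rcases hV with h | ⟨hc, h⟩
    · exact (Pool.Agent.TH466.QG.circ_or_curve hF hN1 hy.dim hy.ne hgen hy.mem).resolve_right h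
    · exact (Pool.Agent.TH466.QG.circ_or_ruled hF hN1 hy hc).resolve_right h
  refine Pool.Agent.N111.FT.fibration (K := K') hC hw hr hm ?_
  rw [Pool.Agent.TH466.QG.tn_eq]
  exact hN

end Pool.Agent.Results.MP_fa3f7f_ag.FibredImages
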