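import Pool.Agent.N115.JS.Def

/-!
MP_fa3f7f_ag, Q1 (the minimal model conjecture), for the projective varieties `M` with multi-valued
maps to the varieties of the vectors whose `m`-th powers, for instance whose squares, are the values
of a polynomial of degree at most `n` at given constants, and for their subvarieties.

`Corr k L a n r` (`Pool/Agent/N115/JS/Cor.lean`): a rational map with at most `r` values (with
arbitrary branching) from the variety `M` with function field `L` to the variety `X_m` of the points
`x` of `P^N` such that `x i ^ m = P (a i)` for a polynomial `P` of degree at most `n`, given by a
point `y` of `X_m` over an extension `E` of `L` of degree at most `r`; its polynomial is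
`q ^ m * H`, where `H` has no `m`-fold factors. `red` is the reduced map with the coordinates
`y i / q (a i)`, `values` are the conjugates of the ratios of its coordinates. `baseField f` is the
function field of the base `M₀` of the fibration `M ⇢ M₀` which is defined by the family `f`: the
functions on `M` which are algebraic over all these values. The other definitions are in
`Pool/Agent/N115/JS/Def.lean`. The parts were written by the helpers 115, 966, 835, 701, 664, 603,
849, 530.

A variety of general type has a minimal model (Birkar, Cascini, Hacon, McKernan); a variety with a
fibration over a variety of general type with fibres of dimension at most `3` satisfies Q1 (Mori,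
Kollár, Viehweg, Lai). So Q1 holds for `M` if the reduced maps are jointly generically finite, or if
`dim M ≤ 3 + dim M₀`; and for all closed subvarieties `T` of `M` through a general point of `M` whose
image in `M₀` has dimension at least `dim T - 3` and is not a point. These consequences are not
formalised.
-/

set_option autoImplicit false

namespace Pool.Agent.Results.MP_fa3f7f_ag.MultivaluedMinimalModels

open Pool.Agent.W602.GT (GeneralType coords)
open Pool.Agent.TH466.QG (StronglyGeneral)
open Pool.Agent.N115.JS

/-- Let `k` be algebraically closed of characteristic `0` and `f` any family of maps with at most `r`
values from a projective variety `M` with generic point `ξ` to the varieties `X_m ⊆ P^N`, `m ≥ 2`, of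
the points whose `m`-th powers are the values at `a 0, ..., a N` of a polynomial of degree at most
`n`. Let `M ⇢ M₀` be the fibration defined by `f`: the function field of `M₀` is the smallest
subfield of the function field of `M`, algebraically closed in it, over which the values of all
reduced maps are algebraic. Let `dim M₀ ≤ s` and
`4 s r n + (s r n + s r (r - 1) + 1) ^ 2 < 2 (N + 1)`.

(1) `M₀` is a point or of general type, of dimension at least the dimensions of the images of the
reduced maps, and all its projective models are strongly of general type: off a proper closed subset
all closed subvarieties of positive dimension are of general type.

(2) Off a proper closed subset of `M` all closed subvarieties of `M` are mapped by `M ⇢ M₀` to points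
or onto varieties of general type.

(3) If the reduced maps are jointly generically finite then `M` itself is of general type and
strongly of general type: so `M` and all its closed subvarieties which are not contained in a proper
closed subset of `M` have minimal models. -/
theorem result {k : Type} [Field k] [CharZero k] [IsAlgClosed k] {N n r s : ℕ} (hr : 1 ≤ r)
    (hs : 1 ≤ s) (hN : Bound N n r s) {a : Fin (N + 1) → k} (ha : Function.Injective a)
    {L : Type} [Field L] [Algebra k L] {M : ℕ} {ξ : Fin (M + 1) → L} (hξ : IsModel k ξ)
    {ι : Type} (f : ι → Corr k L a n r) {w : ℕ} (hw : Algebra.trdeg k (baseField f) = w)
    (hws : w ≤ s) :
    Universal f ∧ HasModel k (baseField f) ∧ GeneralType k (baseField f) w ∧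
      (∀ i, Algebra.trdeg k (coords k (f i).red) ≤ w) ∧ BaseStrong ξ f ∧
      (JointlyFinite f → GeneralType k L w ∧ StronglyGeneral k ξ) :=
  lang_main hr hs hN ha hξ f hw hws

end Pool.Agent.Results.MP_fa3f7f_ag.MultivaluedMinimalModels
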